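import Pool.Agent.Helper89.EM.Dense

/-!
# All `k` at once
-/

set_option autoImplicit false

namespace Pool.Agent.Results.MP_0f56fd_co.AllK

open Pool.Agent.Helper89.EM

/-- every `P(n,k)` is super edge-magic -/
def Every (n : ℕ) : Prop := ∀ k : ℕ, 1 ≤ k → 2 * k < n → IsSuperEdgeMagic (GP n k)

/-- (1) For all large `x`, at least `x / (log x)^74` of the odd `n ≤ x` have every `P(n,k)` super
edge-magic. (2) So have all `n = 3^a m r`, `m` odd, `m ≤ 23`, `r` odd with every prime `p ∣ r` equal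
to `3` or with `40p^2 ≤ 3^a m`. (3) If `m` has it, so has `mr`, for every odd `r` whose primes `p`
have `p = 3` or `40p^2 ≤ m`. -/
theorem result :
    (∀ᶠ x : ℕ in Filter.atTop, (x : ℝ) / (Real.log x) ^ 74 ≤
      ({n : ℕ | n ≤ x ∧ n % 2 = 1 ∧ 3 ≤ n ∧ Every n}.ncard : ℝ)) ∧
    (∀ a m r : ℕ, m % 2 = 1 → m ≤ 23 → r % 2 = 1 →
      (∀ p : ℕ, p.Prime → p ∣ r → p = 3 ∨ 40 * p ^ 2 ≤ 3 ^ a * m) → Every (3 ^ a * m * r)) ∧
    (∀ m r : ℕ, m % 2 = 1 → r % 2 = 1 →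
      (∀ p : ℕ, p.Prime → p ∣ r → p = 3 ∨ 40 * p ^ 2 ≤ m) → Every m → Every (m * r)) :=
  ⟨graph_count, fun _ _ _ hm h23 hr hp k hk0 hk => graph_smooth hm h23 hr hp k hk0 hk,
    fun _ _ hm hr hp h k hk0 hk => graph_cover hm hr hp h k hk0 hk⟩

end Pool.Agent.Results.MP_0f56fd_co.AllK
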