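import Pool.Agent.Helper89.EM.Persist

/-!
# Odd multiples of `n` for super edge-magic generalized Petersen graphs
-/

set_option autoImplicit false

namespace Pool.Agent.Results.MP_0f56fd_co.OddMultiples

open Pool.Agent.Helper89.EM

/-- Odd multiples. -/
theorem result :
    (∀ m r k : ℕ, m % 2 = 1 → r % 2 = 1 → 1 ≤ k → 2 * k < m →
      IsSuperEdgeMagic (GP m k) → IsSuperEdgeMagic (GP (m * r) k)) ∧
    (∀ n k M : ℕ, n % 2 = 1 → 1 ≤ k → 2 * k < n → Good k M → M ∣ n →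
      (2 * k < M ∨ (¬ 4 ∣ k ∧ k ≤ M)) → IsSuperEdgeMagic (GP n k)) ∧
    (∀ n k : ℕ, n % 2 = 1 → 1 ≤ k → 2 * k + 1 ∣ n → IsSuperEdgeMagic (GP n k)) := by
  refine ⟨?_, ?_, ?_⟩
  · intro m r k hm hr hk0 hk h
    exact persistence hm hr hk0 hk h
  · intro n k M hn hk0 hk hM hd hb
    refine family hn hk0 hk hM hd ?_
    rcases hb with hb | ⟨hb, hb'⟩
    · exact Or.inr (Or.inl hb)
    · exact Or.inr (Or.inr ⟨fun h4 => hb (Nat.dvd_of_mod_eq_zero h4), hb'⟩)
  · intro n k hn hk hd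
    have h1 : 2 * k + 1 ≤ n := Nat.le_of_dvd (by omega) hd
    exact family hn hk (by omega) (good_self hk) hd (Or.inr (Or.inl (by omega)))

end Pool.Agent.Results.MP_0f56fd_co.OddMultiples
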