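import Pool.Agent.Helper89.EM.Short

/-!
# `P(n,k)` for `gcd(k,n)^2 ≥ n`
-/

set_option autoImplicit false

namespace Pool.Agent.Results.MP_0f56fd_co.ShortCycles

open Pool.Agent.Helper89.EM

/-- `P(n,k)` is super edge-magic for every odd `n` and every `k` with `gcd(k,n)^2 ≥ n`. -/
theorem result :
    ∀ n k : ℕ, n % 2 = 1 → 1 ≤ k → 2 * k < n → n ≤ Nat.gcd k n ^ 2 → IsSuperEdgeMagic (GP n k) :=
  fun _ _ hn hk0 hk h => graph_short hn hk0 hk h

end Pool.Agent.Results.MP_0f56fd_co.ShortCycles
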