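import Pool.Agent.Helper92.EM.Reach

/-!
# Coverings of super edge-magic generalized Petersen graphs
-/

set_option autoImplicit false

namespace Pool.Agent.Results.MP_0f56fd_co.UniversalLift

open Pool.Agent.Helper89.EM

/-- (1) For `m`, `r` odd, every prime factor `p` of `r` being `3` or with `40 p ^ 2 ≤ m`, every
covering `P(m r,k)` of a super edge-magic `P(m,l)` is super edge-magic, and so is `P(m r,k)` for
all `k` divisible by `m`. (2) `P(n,k)` is super edge-magic for all `n` reached for `k`. -/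
theorem result :
    (∀ m r k : ℕ, m % 2 = 1 → r % 2 = 1 →
      (∀ p : ℕ, p.Prime → p ∣ r → p = 3 ∨ 40 * p ^ 2 ≤ m) → 1 ≤ k → 2 * k < m * r →
      (m ∣ k ∨ ∃ l : ℕ, 1 ≤ l ∧ 2 * l < m ∧ (k ≡ l [MOD m] ∨ k + l ≡ 0 [MOD m]) ∧
        IsSuperEdgeMagic (GP m l)) → IsSuperEdgeMagic (GP (m * r) k)) ∧
    (∀ n k : ℕ, Reach k n → 1 ≤ k → 2 * k < n → IsSuperEdgeMagic (GP n k)) :=
  ⟨fun _ _ _ hm hr hp hk0 hk h => cover_graph hm hr hp hk0 hk h,
    fun _ _ h hk0 hk => reach_graph h hk0 hk⟩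

end Pool.Agent.Results.MP_0f56fd_co.UniversalLift
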